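import Mathlib

open MeasureTheory Filter Topology Function

namespace Pool.Agent.H95.Kingman

variable {Ω : Type*} [MeasurableSpace Ω] {μ : Measure Ω}

lemma integral_comp_mp {T : Ω → Ω} (hT : MeasurePreserving T μ μ) {f : Ω → ℝ}
    (hf : Measurable f) : ∫ ω, f (T ω) ∂μ = ∫ ω, f ω ∂μ := by
  have h := integral_map (μ := μ) hT.measurable.aemeasurable (f := f)
    (hf.aestronglyMeasurable)
  rw [hT.map_eq] at h
  exact h.symm

omit [MeasurableSpace Ω] in
/-- the deterministic covering bound -/
lemma cover_bound {X : ℕ → Ω → ℝ} {T : Ω → Ω} {g : Ω → ℝ}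
    (hsub : ∀ m n ω, X (m + n) ω ≤ X m ω + X n (T^[m] ω))
    (hneg : ∀ n ω, X n ω ≤ 0) (gneg : ∀ ω, g ω ≤ 0) {ε : ℝ} (hε : 0 ≤ ε) (L : ℕ)
    (B : Set Ω)
    (hB : ∀ ω, ω ∉ B → ∃ j, 1 ≤ j ∧ j ≤ L ∧ X j ω ≤ j * (g ω + ε)) :
    ∀ (n : ℕ) (ω : Ω), (∀ i, g (T^[i] ω) = g ω) →
      X n ω ≤ g ω * (n - L - ∑ i ∈ Finset.range n, B.indicator (fun _ => (1 : ℝ)) (T^[i] ω))
        + ε * n := by
  intro n
  induction n using Nat.strong_induction_on with
  | _ n ih =>
    intro ω hω
    have hcnn : ∀ (m : ℕ) (ω' : Ω),
        0 ≤ ∑ i ∈ Finset.range m, B.indicator (fun _ => (1 : ℝ)) (T^[i] ω') := by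
      intro m ω'
      apply Finset.sum_nonneg
      intro i _
      apply Set.indicator_nonneg
      intro _ _; norm_num
    by_cases hn : n ≤ L
    · have h1 : (n : ℝ) - L ≤ 0 := by
        have : (n : ℝ) ≤ L := by exact_mod_cast hn
        linarith
      have h2 := hcnn n ω
      have h3 : 0 ≤ g ω * (n - L - ∑ i ∈ Finset.range n,
          B.indicator (fun _ => (1 : ℝ)) (T^[i] ω)) := by
        apply mul_nonneg_of_nonpos_of_nonpos (gneg ω)
        linarith
      have h4 : 0 ≤ ε * n := by positivity
      have := hneg n ω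
      linarith
    · push Not at hn
      by_cases hx : ω ∈ B
      · -- take one step
        obtain ⟨m, rfl⟩ : ∃ m, n = 1 + m := ⟨n - 1, by omega⟩
        have hih := ih m (by omega) (T ω) (by
          intro i
          have h1 := hω (i + 1)
          have h2 := hω 1
          simp only [iterate_succ, comp_apply] at h1
          simp only [iterate_one] at h2
          rw [h1, h2])
        have h1 := hω 1
        simp only [iterate_one] at h1
        have hs := hsub 1 m ω
        simp only [iterate_one] at hs
        have hn1 := hneg 1 ω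
        have hsum : ∑ i ∈ Finset.range (1 + m), B.indicator (fun _ => (1 : ℝ)) (T^[i] ω)
            = 1 + ∑ i ∈ Finset.range m, B.indicator (fun _ => (1 : ℝ)) (T^[i] (T ω)) := by
          rw [add_comm 1 m, Finset.sum_range_succ']
          simp only [iterate_succ, comp_apply, iterate_zero, id]
          rw [Set.indicator_of_mem hx]
          ring
        rw [hsum]
        rw [h1] at hih
        push_cast
        have : ε * m ≤ ε * (1 + m) := by nlinarith
        have e : g ω * (1 + (m : ℝ) - L - (1 + ∑ i ∈ Finset.range m,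
            B.indicator (fun _ => (1 : ℝ)) (T^[i] (T ω)))) = g ω * (m - L -
            ∑ i ∈ Finset.range m, B.indicator (fun _ => (1 : ℝ)) (T^[i] (T ω))) := by ring
        rw [e]
        linarith
      · obtain ⟨j, hj1, hjL, hj⟩ := hB ω hx
        obtain ⟨m, rfl⟩ : ∃ m, n = j + m := ⟨n - j, by omega⟩
        have hinv : g (T^[j] ω) = g ω := hω j
        have hih := ih m (by omega) (T^[j] ω) (by
          intro i
          rw [← iterate_add_apply, hω, hinv])
        have hs := hsub j m ω
        have hsum : ∑ i ∈ Finset.range m, B.indicator (fun _ => (1 : ℝ)) (T^[i] (T^[j] ω))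
            ≤ ∑ i ∈ Finset.range (j + m), B.indicator (fun _ => (1 : ℝ)) (T^[i] ω) := by
          rw [Finset.sum_range_add]
          have h0 := hcnn j ω
          have : ∀ x, T^[x] (T^[j] ω) = T^[j + x] ω := by
            intro x; rw [← iterate_add_apply, add_comm]
          simp only [this]
          linarith
        rw [hinv] at hih
        have h5 : g ω * (m - L - ∑ i ∈ Finset.range m,
            B.indicator (fun _ => (1 : ℝ)) (T^[i] (T^[j] ω))) ≤
            g ω * (m - L - ∑ i ∈ Finset.range (j + m),
            B.indicator (fun _ => (1 : ℝ)) (T^[i] ω)) := by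
          apply mul_le_mul_of_nonpos_left _ (gneg ω)
          linarith
        push_cast
        nlinarith


omit [MeasurableSpace Ω] in
/-- the running average has absolute value at most `C` -/
lemma div_bd {X : ℕ → Ω → ℝ} {C : ℝ} (hC : 0 ≤ C) {ω : Ω} (h1 : ∀ n, X n ω ≤ 0)
    (h2 : ∀ n, -(C * n) ≤ X n ω) (n : ℕ) : -C ≤ X n ω / n ∧ X n ω / n ≤ 0 := by
  rcases Nat.eq_zero_or_pos n with h | h
  · subst h; simp [hC]
  · have hn : (0 : ℝ) < n := by exact_mod_cast h
    refine ⟨?_, div_nonpos_of_nonpos_of_nonneg (h1 n) hn.le⟩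
    rw [le_div_iff₀ hn]; have := h2 n; linarith

lemma bdd_le {u : ℕ → ℝ} {c : ℝ} (h : ∀ n, u n ≤ c) : IsBoundedUnder (· ≤ ·) atTop u :=
  isBoundedUnder_of ⟨c, h⟩

lemma bdd_ge {u : ℕ → ℝ} {c : ℝ} (h : ∀ n, c ≤ u n) : IsBoundedUnder (· ≥ ·) atTop u :=
  isBoundedUnder_of ⟨c, h⟩

/-- Main inequality: for a nonpositive subadditive process, the integral of the lower limit of
the averages is at least the infimum of the averaged integrals. -/
lemma le_integral_liminf [IsProbabilityMeasure μ] {X : ℕ → Ω → ℝ} {T : Ω → Ω}
    (hT : MeasurePreserving T μ μ) (hX : ∀ n, Measurable (X n)) {C : ℝ} (hC0 : 0 ≤ C)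
    (hsub : ∀ m n ω, X (m + n) ω ≤ X m ω + X n (T^[m] ω))
    (hneg : ∀ n ω, X n ω ≤ 0) (hC : ∀ n ω, -(C * n) ≤ X n ω) (γ : ℝ)
    (hγ : ∀ n, γ * n ≤ ∫ ω, X n ω ∂μ) :
    γ ≤ ∫ ω, liminf (fun n => X n ω / n) atTop ∂μ := by
  set g : Ω → ℝ := fun ω => liminf (fun n => X n ω / n) atTop with hg
  have hgm : Measurable g := Measurable.liminf (fun n => (hX n).div_const _)
  have hb : ∀ ω, IsBoundedUnder (· ≤ ·) atTop (fun n : ℕ => X n ω / n) := fun ω =>
    bdd_le (fun n => (div_bd hC0 (fun n => hneg n ω) (fun n => hC n ω) n).2)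
  have hb' : ∀ ω, IsBoundedUnder (· ≥ ·) atTop (fun n : ℕ => X n ω / n) := fun ω =>
    bdd_ge (fun n => (div_bd hC0 (fun n => hneg n ω) (fun n => hC n ω) n).1)
  have gneg : ∀ ω, g ω ≤ 0 := by
    intro ω
    apply liminf_le_of_frequently_le _ (hb' ω)
    exact Frequently.of_forall
      (fun n => (div_bd hC0 (fun n => hneg n ω) (fun n => hC n ω) n).2)
  have gge : ∀ ω, -C ≤ g ω := by
    intro ω
    apply le_liminf_of_le (hb ω).isCoboundedUnder_ge
    exact Eventually.of_forall
      (fun n => (div_bd hC0 (fun n => hneg n ω) (fun n => hC n ω) n).1)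
  have gint : Integrable g μ := by
    apply Integrable.of_bound hgm.aestronglyMeasurable C
    filter_upwards with ω
    rw [Real.norm_eq_abs, abs_le]
    exact ⟨gge ω, (gneg ω).trans hC0⟩
  -- invariance
  have hinv1 : ∀ ω, g ω ≤ g (T ω) := by
    intro ω
    by_contra hlt
    push Not at hlt
    obtain ⟨a, ha1, ha2⟩ := exists_between hlt
    obtain ⟨b, hb1, hb2⟩ := exists_between ha1
    have hf : ∃ᶠ n : ℕ in atTop, X n (T ω) / n < b :=
      frequently_lt_of_liminf_lt (hb (T ω)).isCoboundedUnder_ge hb1
    have he : ∀ᶠ n : ℕ in atTop, a < X n ω / n := eventually_lt_of_lt_liminf ha2 (hb' ω)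
    have he' : ∀ᶠ n : ℕ in atTop, a < X (1 + n) ω / ((1 + n : ℕ) : ℝ) := by
      have := (tendsto_add_atTop_nat 1).eventually he
      filter_upwards [this] with n hn
      rwa [add_comm 1 n]
    have hbneg : b < 0 := lt_of_lt_of_le hb2 ((ha2.le).trans (gneg ω))
    -- choose n large with (a - b) n > -b... 
    have hlarge : ∀ᶠ n : ℕ in atTop, |a| ≤ (a - b) * n := by
      have h1 : Tendsto (fun n : ℕ => (a - b) * (n : ℝ)) atTop atTop :=
        (tendsto_natCast_atTop_atTop).const_mul_atTop (by linarith)
      exact h1.eventually_ge_atTop _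
    obtain ⟨n, hn1, hn2, hn3, hn4⟩ :=
      (hf.and_eventually (he'.and (hlarge.and (eventually_ge_atTop 1)))).exists
    have hnpos : (0 : ℝ) < n := by exact_mod_cast hn4
    rw [div_lt_iff₀ hnpos] at hn1
    have hn1' : (0 : ℝ) < ((1 + n : ℕ) : ℝ) := by positivity
    rw [lt_div_iff₀ hn1'] at hn2
    push_cast at hn2
    have hs := hsub 1 n ω
    simp only [iterate_one] at hs
    have := hneg 1 ω
    have h5 := neg_abs_le a
    nlinarith
  have hinvint : ∫ ω, g (T ω) ∂μ = ∫ ω, g ω ∂μ := integral_comp_mp hT hgm
  have hinv2 : ∀ᵐ ω ∂μ, g ω = g (T ω) := by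
    have hTint : Integrable (fun ω => g (T ω)) μ := by
      apply Integrable.of_bound (hgm.comp hT.measurable).aestronglyMeasurable C
      filter_upwards with ω
      rw [Real.norm_eq_abs, abs_le]
      exact ⟨gge _, (gneg _).trans hC0⟩
    exact (integral_eq_iff_of_ae_le gint hTint (Eventually.of_forall hinv1)).1 hinvint.symm
  have hinv : ∀ᵐ ω ∂μ, ∀ i, g (T^[i] ω) = g ω := by
    rw [ae_all_iff]
    intro i
    induction i with
    | zero => simp
    | succ i ih =>
      have h1 : ∀ᵐ ω ∂μ, g (T^[i] ω) = g (T (T^[i] ω)) :=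
        (hT.iterate i).quasiMeasurePreserving.ae hinv2
      filter_upwards [ih, h1] with ω h2 h3
      rw [iterate_succ_apply', ← h3, h2]
  -- the covering bound integrated
  have key : ∀ ε : ℝ, 0 < ε → γ ≤ ∫ ω, g ω ∂μ + ε := by
    intro ε hε
    set B : ℕ → Set Ω := fun L =>
      ⋂ j ∈ Finset.Icc 1 L, {ω | (j : ℝ) * (g ω + ε / 2) < X j ω} with hBdef
    have hBm : ∀ L, MeasurableSet (B L) := by
      intro L
      apply Finset.measurableSet_biInter
      intro j _
      exact measurableSet_lt ((hgm.add_const _).const_mul _) (hX j)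
    have hBanti : Antitone B := by
      intro L L' hLL ω hω
      simp only [hBdef, Set.mem_iInter, Finset.mem_Icc, Set.mem_ofPred_eq] at hω ⊢
      intro j hj
      exact hω j ⟨hj.1, hj.2.trans hLL⟩
    have hBempty : ⋂ L, B L = ∅ := by
      ext ω
      simp only [hBdef, Set.mem_iInter, Finset.mem_Icc, Set.mem_ofPred_eq, Set.mem_empty_iff_false,
        iff_false, not_forall, not_lt]
      have hf : ∃ᶠ n : ℕ in atTop, X n ω / n < g ω + ε / 2 :=
        frequently_lt_of_liminf_lt (hb ω).isCoboundedUnder_ge (by simp only [hg]; linarith)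
      obtain ⟨n, hn1, hn2⟩ := (hf.and_eventually (eventually_ge_atTop 1)).exists
      refine ⟨n, n, ⟨hn2, le_rfl⟩, ?_⟩
      have hnpos : (0 : ℝ) < n := by exact_mod_cast hn2
      rw [div_lt_iff₀ hnpos] at hn1
      linarith
    have hBlim : Tendsto (fun L => μ.real (B L)) atTop (𝓝 0) := by
      have h1 := tendsto_measure_iInter_atTop (μ := μ) (s := B)
        (fun L => (hBm L).nullMeasurableSet) hBanti ⟨0, measure_ne_top _ _⟩
      rw [hBempty, measure_empty] at h1
      have h2 := (ENNReal.tendsto_toReal (ENNReal.zero_ne_top)).comp h1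
      exact h2
    -- choose L
    have hL : ∀ᶠ L in atTop, C * μ.real (B L) < ε / 4 := by
      have h1 : Tendsto (fun L => C * μ.real (B L)) atTop (𝓝 (C * 0)) := hBlim.const_mul C
      rw [mul_zero] at h1
      exact h1.eventually_lt_const (by linarith)
    obtain ⟨L, hL⟩ := hL.exists
    have hcov := cover_bound hsub hneg gneg (ε := ε / 2) (by linarith) L (B L) (by
      intro ω hω
      simp only [hBdef, Set.mem_iInter, Finset.mem_Icc, Set.mem_ofPred_eq, not_forall,
        not_lt] at hω
      obtain ⟨j, hj, hj2⟩ := hω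
      exact ⟨j, hj.1, hj.2, hj2⟩)
    -- integrate
    have hint : ∀ n : ℕ, ∫ ω, X n ω ∂μ ≤ n * ∫ ω, g ω ∂μ + L * C + n * (C * μ.real (B L))
        + ε / 2 * n := by
      intro n
      have hXint : Integrable (X n) μ := by
        apply Integrable.of_bound (hX n).aestronglyMeasurable (C * n)
        filter_upwards with ω
        rw [Real.norm_eq_abs, abs_le]
        exact ⟨hC n ω, (hneg n ω).trans (by positivity)⟩
      have hindm : ∀ i, Measurable (fun ω => (B L).indicator (fun _ => (1 : ℝ)) (T^[i] ω)) := by
        intro i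
        exact (measurable_const.indicator (hBm L)).comp (hT.iterate i).measurable
      have hindint : ∀ i, Integrable (fun ω => (B L).indicator (fun _ => (1 : ℝ)) (T^[i] ω))
          μ := by
        intro i
        apply Integrable.of_bound (hindm i).aestronglyMeasurable 1
        filter_upwards with ω
        rw [Real.norm_eq_abs]
        by_cases h : T^[i] ω ∈ B L
        · simp [Set.indicator_of_mem h]
        · simp [Set.indicator_of_notMem h]
      have hle : ∀ᵐ ω ∂μ, X n ω ≤ n * g ω + L * C +
          C * ∑ i ∈ Finset.range n, (B L).indicator (fun _ => (1 : ℝ)) (T^[i] ω) + ε / 2 * n := by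
        filter_upwards [hinv] with ω hω
        have h1 := hcov n ω hω
        have h2 : 0 ≤ ∑ i ∈ Finset.range n, (B L).indicator (fun _ => (1 : ℝ)) (T^[i] ω) := by
          apply Finset.sum_nonneg
          intro i _
          apply Set.indicator_nonneg
          intro _ _; norm_num
        have h3 := gge ω
        have h4 : (0:ℝ) ≤ L := by positivity
        nlinarith
      have hindsum : ∀ i, ∫ ω, (B L).indicator (fun _ => (1 : ℝ)) (T^[i] ω) ∂μ
          = μ.real (B L) := by
        intro i
        rw [integral_comp_mp (hT.iterate i) (f := (B L).indicator (fun _ => (1 : ℝ)))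
          (measurable_const.indicator (hBm L))]
        rw [integral_indicator (hBm L)]
        simp
      have hRint : Integrable (fun ω => ∑ i ∈ Finset.range n,
          (B L).indicator (fun _ => (1 : ℝ)) (T^[i] ω)) μ :=
        integrable_finsetSum _ (fun i _ => hindint i)
      have i1 : Integrable (fun ω => (n : ℝ) * g ω) μ := gint.const_mul _
      have i2 : Integrable (fun ω => (n : ℝ) * g ω + L * C) μ := i1.add (integrable_const _)
      have i3 : Integrable (fun ω => (n : ℝ) * g ω + L * C + C * ∑ i ∈ Finset.range n,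
          (B L).indicator (fun _ => (1 : ℝ)) (T^[i] ω)) μ := i2.add (hRint.const_mul C)
      have i4 : Integrable (fun ω => (n : ℝ) * g ω + L * C + C * ∑ i ∈ Finset.range n,
          (B L).indicator (fun _ => (1 : ℝ)) (T^[i] ω) + ε / 2 * n) μ :=
        i3.add (integrable_const _)
      calc ∫ ω, X n ω ∂μ ≤ ∫ ω, (n * g ω + L * C +
          C * ∑ i ∈ Finset.range n, (B L).indicator (fun _ => (1 : ℝ)) (T^[i] ω)
            + ε / 2 * n) ∂μ := by
            exact integral_mono_ae hXint i4 hle
        _ = n * ∫ ω, g ω ∂μ + L * C + n * (C * μ.real (B L)) + ε / 2 * n := by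
            rw [integral_add i3 (integrable_const _), integral_add i2 (hRint.const_mul C),
              integral_add i1 (integrable_const _), integral_const_mul,
              integral_const_mul, integral_const_mul,
              integral_finsetSum _ (fun i _ => hindint i)]
            simp only [hindsum, integral_const, probReal_univ, one_smul, Finset.sum_const,
              Finset.card_range, nsmul_eq_mul]
            ring
    -- conclude by letting n tend to infinity
    have hlarge : ∀ᶠ n : ℕ in atTop, L * C ≤ ε / 4 * n := by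
      have h1 : Tendsto (fun n : ℕ => ε / 4 * (n : ℝ)) atTop atTop :=
        (tendsto_natCast_atTop_atTop).const_mul_atTop (by linarith)
      exact h1.eventually_ge_atTop _
    obtain ⟨n, hn1, hn2⟩ := (hlarge.and (eventually_ge_atTop 1)).exists
    have hnpos : (0 : ℝ) < n := by exact_mod_cast hn2
    have h6 := hγ n
    have h7 := hint n
    have h8 : γ * n ≤ (∫ ω, g ω ∂μ + ε) * n := by
      have : (n : ℝ) * (C * μ.real (B L)) ≤ n * (ε / 4) := by
        apply mul_le_mul_of_nonneg_left hL.le hnpos.le
      nlinarith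
    exact le_of_mul_le_mul_right h8 hnpos
  exact le_of_forall_pos_le_add key


/-- **Kingman's subadditive ergodic theorem** for nonpositive subadditive processes with linear
lower bound. -/
theorem kingman_nonpos [IsProbabilityMeasure μ] {X : ℕ → Ω → ℝ} {T : Ω → Ω}
    (hT : MeasurePreserving T μ μ) (hX : ∀ n, Measurable (X n)) {C : ℝ} (hC0 : 0 ≤ C)
    (hsub : ∀ m n ω, X (m + n) ω ≤ X m ω + X n (T^[m] ω))
    (hneg : ∀ n ω, X n ω ≤ 0) (hC : ∀ n ω, -(C * n) ≤ X n ω) :
    ∀ᵐ ω ∂μ, ∃ L, Tendsto (fun n : ℕ => X n ω / n) atTop (𝓝 L) := by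
  set lo : Ω → ℝ := fun ω => liminf (fun n => X n ω / n) atTop with hlo
  set up : Ω → ℝ := fun ω => limsup (fun n => X n ω / n) atTop with hup
  have hlom : Measurable lo := Measurable.liminf (fun n => (hX n).div_const _)
  have hupm : Measurable up := Measurable.limsup (fun n => (hX n).div_const _)
  have hb : ∀ ω, IsBoundedUnder (· ≤ ·) atTop (fun n : ℕ => X n ω / n) := fun ω =>
    bdd_le (fun n => (div_bd hC0 (fun n => hneg n ω) (fun n => hC n ω) n).2)
  have hb' : ∀ ω, IsBoundedUnder (· ≥ ·) atTop (fun n : ℕ => X n ω / n) := fun ω =>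
    bdd_ge (fun n => (div_bd hC0 (fun n => hneg n ω) (fun n => hC n ω) n).1)
  have hle : ∀ ω, lo ω ≤ up ω := fun ω => liminf_le_limsup (hb ω) (hb' ω)
  have lo_ge : ∀ ω, -C ≤ lo ω := by
    intro ω
    apply le_liminf_of_le (hb ω).isCoboundedUnder_ge
    exact Eventually.of_forall
      (fun n => (div_bd hC0 (fun n => hneg n ω) (fun n => hC n ω) n).1)
  have up_le : ∀ ω, up ω ≤ 0 := by
    intro ω
    apply limsup_le_of_le (hb' ω).isCoboundedUnder_le
    exact Eventually.of_forall
      (fun n => (div_bd hC0 (fun n => hneg n ω) (fun n => hC n ω) n).2)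
  have loint : Integrable lo μ := by
    apply Integrable.of_bound hlom.aestronglyMeasurable C
    filter_upwards with ω
    rw [Real.norm_eq_abs, abs_le]
    exact ⟨lo_ge ω, ((hle ω).trans (up_le ω)).trans hC0⟩
  have upint : Integrable up μ := by
    apply Integrable.of_bound hupm.aestronglyMeasurable C
    filter_upwards with ω
    rw [Real.norm_eq_abs, abs_le]
    exact ⟨(lo_ge ω).trans (hle ω), (up_le ω).trans hC0⟩
  have hXint : ∀ n, Integrable (X n) μ := by
    intro n
    apply Integrable.of_bound (hX n).aestronglyMeasurable (C * n)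
    filter_upwards with ω
    rw [Real.norm_eq_abs, abs_le]
    exact ⟨hC n ω, (hneg n ω).trans (by positivity)⟩
  -- upper bound for the integral of `up`
  have hup_le : ∀ k : ℕ, 1 ≤ k → (k : ℝ) * ∫ ω, up ω ∂μ ≤ ∫ ω, X k ω ∂μ := by
    intro k hk
    have hkpos : (0 : ℝ) < k := by exact_mod_cast hk
    -- the additive process for `S = T^[k]`
    set S : Ω → Ω := T^[k] with hS
    have hSmp : MeasurePreserving S μ μ := hT.iterate k
    set F : ℕ → Ω → ℝ := fun n ω => ∑ j ∈ Finset.range n, X k (S^[j] ω) with hF
    have hFm : ∀ n, Measurable (F n) := by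
      intro n
      apply Finset.measurable_sum
      intro j _
      exact (hX k).comp (hSmp.iterate j).measurable
    have hF1 : ∀ n ω, F n ω ≤ 0 := fun n ω => Finset.sum_nonpos (fun j _ => hneg k _)
    have hF2 : ∀ n ω, -(C * k * n) ≤ F n ω := by
      intro n ω
      have : ∑ j ∈ Finset.range n, (-(C * k)) ≤ F n ω :=
        Finset.sum_le_sum (fun j _ => hC k _)
      simp only [Finset.sum_const, Finset.card_range, nsmul_eq_mul] at this
      linarith
    have hFadd : ∀ m n ω, F (m + n) ω = F m ω + F n (S^[m] ω) := by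
      intro m n ω
      simp only [hF, Finset.sum_range_add]
      congr 1
      apply Finset.sum_congr rfl
      intro j _
      rw [← iterate_add_apply, add_comm]
    -- comparison
    have hcmp : ∀ n ω, X (k * n) ω ≤ F n ω := by
      intro n
      induction n with
      | zero =>
        intro ω
        simp only [mul_zero, hF, Finset.range_zero, Finset.sum_empty]
        exact hneg 0 ω
      | succ n ih =>
        intro ω
        have h1 : k * (n + 1) = k + k * n := by ring
        have h2 : n + 1 = 1 + n := by ring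
        rw [h1, h2, hFadd]
        have h3 := hsub k (k * n) ω
        have h4 := ih (T^[k] ω)
        have h5 : F 1 ω = X k ω := by simp [hF]
        rw [h5, iterate_one]
        linarith
    have hcmp2 : ∀ n ω, X n ω ≤ F (n / k) ω := by
      intro n ω
      have h1 : n = k * (n / k) + n % k := (Nat.div_add_mod n k).symm
      have h2 := hsub (k * (n / k)) (n % k) ω
      rw [← h1] at h2
      have h3 := hneg (n % k) (T^[k * (n / k)] ω)
      have h4 := hcmp (n / k) ω
      linarith
    -- apply the main inequality to `Y n = - F n - C k n`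
    set Y : ℕ → Ω → ℝ := fun n ω => -F n ω - C * k * n with hY
    have hYm : ∀ n, Measurable (Y n) := fun n => (hFm n).neg.sub_const _
    have hFint : ∀ n : ℕ, ∫ ω, F n ω ∂μ = n * ∫ ω, X k ω ∂μ := by
      intro n
      simp only [hF]
      rw [integral_finsetSum]
      · have : ∀ j, ∫ ω, X k (S^[j] ω) ∂μ = ∫ ω, X k ω ∂μ := fun j =>
          integral_comp_mp (hSmp.iterate j) (hX k)
        simp [this]
      · intro j _
        apply Integrable.of_bound ((hX k).comp (hSmp.iterate j).measurable).aestronglyMeasurable
          (C * k)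
        filter_upwards with ω
        simp only [comp_apply]
        rw [Real.norm_eq_abs, abs_le]
        exact ⟨hC k _, (hneg k _).trans (by positivity)⟩
    have hFi : ∀ n, Integrable (F n) μ := by
      intro n
      apply Integrable.of_bound (hFm n).aestronglyMeasurable (C * k * n)
      filter_upwards with ω
      rw [Real.norm_eq_abs, abs_le]
      exact ⟨hF2 n _, (hF1 n _).trans (by positivity)⟩
    have hmain := le_integral_liminf (X := Y) (T := S) hSmp hYm (C := C * k) (by positivity)
      (by
        intro m n ω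
        simp only [hY]
        rw [hFadd]
        push_cast
        linarith)
      (by
        intro n ω
        simp only [hY]
        have := hF2 n ω
        linarith)
      (by
        intro n ω
        simp only [hY]
        have := hF1 n ω
        linarith)
      (-(∫ ω, X k ω ∂μ) - C * k)
      (by
        intro n
        simp only [hY]
        have hi : Integrable (fun ω => -F n ω) μ := (hFi n).neg
        rw [integral_sub hi (integrable_const _), integral_neg, hFint]
        simp only [integral_const, probReal_univ, one_smul]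
        linarith)
    -- pointwise: liminf (Y n / n) ≤ - k * up - C k
    have hpt : ∀ ω, liminf (fun n => Y n ω / n) atTop ≤ -(k * up ω) - C * k := by
      intro ω
      have hYb := fun n => div_bd (X := Y) (C := C * k) (by positivity) (ω := ω)
        (by
          intro n
          simp only [hY]
          have := hF2 n ω
          linarith)
        (by
          intro n
          simp only [hY]
          have := hF1 n ω
          linarith) n
      by_contra hlt
      push Not at hlt
      obtain ⟨a, ha1, ha2⟩ := exists_between hlt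
      have he : ∀ᶠ n : ℕ in atTop, a < Y n ω / n :=
        eventually_lt_of_lt_liminf ha2 (bdd_ge (fun n => (hYb n).1))
      -- hence `F n / n < - a - C k` eventually, so `X m / m` is eventually small
      have hlt2 : -(a + C * k) / k < up ω := by
        rw [div_lt_iff₀ hkpos]
        linarith
      obtain ⟨b, hb1, hb2⟩ := exists_between hlt2
      have hf : ∃ᶠ n : ℕ in atTop, b < X n ω / n :=
        frequently_lt_of_lt_limsup (hb' ω).isCoboundedUnder_le hb2
      have hdiv : Tendsto (fun n : ℕ => n / k) atTop atTop :=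
        Nat.tendsto_div_const_atTop (by omega)
      have he2 : ∀ᶠ n : ℕ in atTop, a < Y (n / k) ω / ((n / k : ℕ) : ℝ) := hdiv.eventually he
      have hbneg : b < 0 := lt_of_lt_of_le hb2 (up_le ω)
      have hlarge : ∀ᶠ n : ℕ in atTop, |b| * k ≤ (k * b + (a + C * k)) * ((n / k : ℕ) : ℝ) := by
        have h0 : 0 < k * b + (a + C * k) := by
          rw [div_lt_iff₀ hkpos] at hb1
          linarith
        have h1 : Tendsto (fun n : ℕ => (k * b + (a + C * k)) * (n : ℝ)) atTop atTop :=
          (tendsto_natCast_atTop_atTop).const_mul_atTop h0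
        exact hdiv.eventually (h1.eventually_ge_atTop _)
      obtain ⟨n, hn1, hn2, hn3, hn4⟩ :=
        (hf.and_eventually (he2.and (hlarge.and (eventually_ge_atTop k)))).exists
      have hnpos : (0 : ℝ) < n := by
        have : 0 < n := by omega
        exact_mod_cast this
      have hqpos : (0 : ℝ) < ((n / k : ℕ) : ℝ) := by
        have : 0 < n / k := Nat.div_pos hn4 (by omega)
        exact_mod_cast this
      rw [lt_div_iff₀ hnpos] at hn1
      rw [lt_div_iff₀ hqpos] at hn2
      simp only [hY] at hn2
      have h6 := hcmp2 n ω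
      -- n ≤ k * (n / k) + k
      have h7 : (n : ℝ) ≤ k * ((n / k : ℕ) : ℝ) + k := by
        have h8 : n ≤ k * (n / k) + k := by
          have := Nat.div_add_mod n k
          have := Nat.mod_lt n (by omega : 0 < k)
          omega
        exact_mod_cast h8
      have h9 : b * (k * ((n / k : ℕ) : ℝ) + k) ≤ b * n :=
        mul_le_mul_of_nonpos_left h7 hbneg.le
      have h10 := neg_abs_le b
      have h11 : -|b| * k ≤ b * k := mul_le_mul_of_nonneg_right h10 hkpos.le
      nlinarith
    have hYlim_int : Integrable (fun ω => liminf (fun n => Y n ω / n) atTop) μ := by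
      have hYb := fun ω n => div_bd (X := Y) (C := C * k) (by positivity) (ω := ω)
        (by
          intro n
          simp only [hY]
          have := hF2 n ω
          linarith)
        (by
          intro n
          simp only [hY]
          have := hF1 n ω
          linarith) n
      apply Integrable.of_bound
        (Measurable.liminf (fun n => (hYm n).div_const _)).aestronglyMeasurable (C * k)
      filter_upwards with ω
      rw [Real.norm_eq_abs, abs_le]
      constructor
      · apply le_liminf_of_le (bdd_le (fun n => (hYb ω n).2)).isCoboundedUnder_ge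
        exact Eventually.of_forall (fun n => (hYb ω n).1)
      · apply (liminf_le_of_frequently_le _ (bdd_ge (fun n => (hYb ω n).1))).trans
          (by positivity : (0 : ℝ) ≤ C * k)
        exact Frequently.of_forall (fun n => (hYb ω n).2)
    have hfin : ∫ ω, liminf (fun n => Y n ω / n) atTop ∂μ ≤ -(k * ∫ ω, up ω ∂μ) - C * k := by
      calc ∫ ω, liminf (fun n => Y n ω / n) atTop ∂μ ≤ ∫ ω, (-(k * up ω) - C * k) ∂μ := by
            apply integral_mono hYlim_int _ hpt
            exact (upint.const_mul _).neg.sub (integrable_const _)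
        _ = -(k * ∫ ω, up ω ∂μ) - C * k := by
            have hi : Integrable (fun ω => -((k : ℝ) * up ω)) μ := (upint.const_mul _).neg
            rw [integral_sub hi (integrable_const _), integral_neg, integral_const_mul]
            simp
    linarith
  -- lower bound for the integral of `lo`
  have hlo_ge : ∫ ω, up ω ∂μ ≤ ∫ ω, lo ω ∂μ := by
    apply le_integral_liminf hT hX hC0 hsub hneg hC
    intro n
    rcases Nat.eq_zero_or_pos n with h | h
    · subst h
      have : ∀ ω, X 0 ω = 0 := by
        intro ω
        have h1 := hneg 0 ω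
        have h2 := hC 0 ω
        simp only [Nat.cast_zero, mul_zero, neg_zero] at h2
        linarith
      simp [this]
    · rw [mul_comm]
      exact hup_le n h
  have hEq : ∫ ω, lo ω ∂μ = ∫ ω, up ω ∂μ :=
    le_antisymm (integral_mono loint upint hle) hlo_ge
  have hae := (integral_eq_iff_of_ae_le loint upint (Eventually.of_forall hle)).1 hEq
  filter_upwards [hae] with ω hω
  exact ⟨lo ω, tendsto_of_liminf_eq_limsup rfl hω.symm (hb ω) (hb' ω)⟩

/-- **Kingman's subadditive ergodic theorem** for superadditive processes bounded by a linear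
function. -/
theorem kingman_super [IsProbabilityMeasure μ] {X : ℕ → Ω → ℝ} {T : Ω → Ω}
    (hT : MeasurePreserving T μ μ) (hX : ∀ n, Measurable (X n)) {C : ℝ} (hC0 : 0 ≤ C)
    (hsup : ∀ m n ω, X m ω + X n (T^[m] ω) ≤ X (m + n) ω)
    (h1 : ∀ n ω, 0 ≤ X n ω) (h2 : ∀ n ω, X n ω ≤ C * n) :
    ∀ᵐ ω ∂μ, ∃ L, Tendsto (fun n : ℕ => X n ω / n) atTop (𝓝 L) := by
  have h := kingman_nonpos (X := fun n ω => -X n ω) hT (fun n => (hX n).neg) hC0
    (fun m n ω => by have := hsup m n ω; linarith) (fun n ω => by have := h1 n ω; linarith)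
    (fun n ω => by have := h2 n ω; linarith)
  filter_upwards [h] with ω hω
  obtain ⟨L, hL⟩ := hω
  refine ⟨-L, ?_⟩
  have := hL.neg
  simpa [neg_div] using this

end Pool.Agent.H95.Kingman
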