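import Mathlib
import Pool.Agent.H95.Kingman

open MeasureTheory Filter Topology Function

namespace Pool.Agent.H95.Single

variable {Ω V A : Type*} [AddCommGroup V]

/-- total payoff collected along a list of actions started at `z` -/
def tot (r : V → A → ℝ) (s : A → V) : V → List A → ℝ
  | _, [] => 0
  | z, a :: w => r z a + tot r s (z + s a) w

lemma tot_append (r : V → A → ℝ) (s : A → V) (w w' : List A) : ∀ z : V,
    tot r s z (w ++ w') = tot r s z w + tot r s (z + (w.map s).sum) w' := by
  induction w with
  | nil => intro z; simp [tot]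
  | cons a w ih =>
    intro z
    simp only [List.cons_append, tot, ih, List.map_cons, List.sum_cons]
    rw [add_assoc z, add_assoc (r z a)]

lemma tot_nonneg {r : V → A → ℝ} (s : A → V) (hr : ∀ z a, 0 ≤ r z a) (w : List A) :
    ∀ z : V, 0 ≤ tot r s z w := by
  induction w with
  | nil => intro z; simp [tot]
  | cons a w ih => intro z; simp only [tot]; exact add_nonneg (hr _ _) (ih _)

lemma tot_le {r : V → A → ℝ} (s : A → V) {C : ℝ} (hr : ∀ z a, r z a ≤ C) (w : List A) :
    ∀ z : V, tot r s z w ≤ C * w.length := by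
  induction w with
  | nil => intro z; simp [tot]
  | cons a w ih =>
    intro z; simp only [tot, List.length_cons]; push_cast
    have := hr z a; have := ih (z + s a); linarith

lemma tot_shift {r r' : V → A → ℝ} (s : A → V) {ξ : V} (h : ∀ z a, r' z a = r (ξ + z) a)
    (w : List A) : ∀ z : V, tot r' s z w = tot r s (ξ + z) w := by
  induction w with
  | nil => intro z; simp [tot]
  | cons a w ih => intro z; simp only [tot, h, ih, add_assoc]

lemma tot_measurable [MeasurableSpace Ω] {r : Ω → V → A → ℝ} (s : A → V)
    (hr : ∀ z a, Measurable fun ω => r ω z a) (w : List A) :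
    ∀ z : V, Measurable fun ω => tot (r ω) s z w := by
  induction w with
  | nil => intro z; simp only [tot]; exact measurable_const
  | cons a w ih => intro z; simp only [tot]; exact (hr _ _).add (ih _)

lemma finite_lists [Finite A] (m : Multiset A) : Finite {w : List A // (w : Multiset A) = m} := by
  have h := List.finite_length_eq A (Multiset.card m)
  apply Set.Finite.subset h
  intro w hw
  have : (w : Multiset A) = m := hw
  change w.length = Multiset.card m
  rw [← this]; simp

instance nonempty_lists (m : Multiset A) : Nonempty {w : List A // (w : Multiset A) = m} :=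
  ⟨⟨m.toList, Multiset.coe_toList m⟩⟩

lemma finite_len [Finite A] (n : ℕ) : Finite {w : List A // w.length = n} :=
  List.finite_length_eq A n

instance nonempty_len [Nonempty A] (n : ℕ) : Nonempty {w : List A // w.length = n} :=
  ⟨⟨List.replicate n (Classical.arbitrary A), by simp⟩⟩

/-- best total payoff over all action sequences with content `n • m` -/
noncomputable def Y (r : V → A → ℝ) (s : A → V) (z : V) (m : Multiset A) (n : ℕ) : ℝ :=
  ⨆ w : {w : List A // (w : Multiset A) = n • m}, tot r s z w

/-- best total payoff over all action sequences of length `n` -/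
noncomputable def M (r : V → A → ℝ) (s : A → V) (z : V) (n : ℕ) : ℝ :=
  ⨆ w : {w : List A // w.length = n}, tot r s z w

lemma le_Y [Finite A] (r : V → A → ℝ) (s : A → V) (z : V) (m : Multiset A) (n : ℕ) (w : List A)
    (hw : (w : Multiset A) = n • m) : tot r s z w ≤ Y r s z m n := by
  have := finite_lists (n • m)
  exact le_ciSup (f := fun w : {w : List A // (w : Multiset A) = n • m} => tot r s z w)
    (Finite.bddAbove_range _) ⟨w, hw⟩

lemma le_M [Finite A] (r : V → A → ℝ) (s : A → V) (z : V) (n : ℕ) (w : List A)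
    (hw : w.length = n) : tot r s z w ≤ M r s z n := by
  have := finite_len (A := A) n
  exact le_ciSup (f := fun w : {w : List A // w.length = n} => tot r s z w)
    (Finite.bddAbove_range _) ⟨w, hw⟩

lemma Y_super [Finite A] (r : V → A → ℝ) (s : A → V) (z : V) (m : Multiset A) (n n' : ℕ) :
    Y r s z m n + Y r s (z + n • (m.map s).sum) m n' ≤ Y r s z m (n + n') := by
  have h1 : ∀ w : {w : List A // (w : Multiset A) = n • m},
      tot r s z w ≤ Y r s z m (n + n') - Y r s (z + n • (m.map s).sum) m n' := by
    rintro ⟨w, hw⟩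
    have h2 : Y r s (z + n • (m.map s).sum) m n' ≤ Y r s z m (n + n') - tot r s z w := by
      apply ciSup_le
      rintro ⟨w', hw'⟩
      have h3 := le_Y r s z m (n + n') (w ++ w') (by
        rw [← Multiset.coe_add, hw, hw', add_smul])
      rw [tot_append] at h3
      have h4 : (w.map s).sum = n • (m.map s).sum := by
        rw [← Multiset.sum_coe, ← Multiset.map_coe, hw, Multiset.map_nsmul, Multiset.sum_nsmul]
      rw [h4] at h3
      simp only
      linarith
    simp only
    linarith
  have := ciSup_le h1
  change (⨆ w : {w : List A // (w : Multiset A) = n • m}, tot r s z w) + _ ≤ _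
  linarith

lemma Y_nonneg [Finite A] {r : V → A → ℝ} (s : A → V) (z : V) (m : Multiset A) (n : ℕ)
    (hr : ∀ z a, 0 ≤ r z a) : 0 ≤ Y r s z m n :=
  (tot_nonneg s hr _ z).trans (le_Y r s z m n _ (Multiset.coe_toList _))

lemma Y_le [Finite A] {r : V → A → ℝ} (s : A → V) (z : V) (m : Multiset A) (n : ℕ) {C : ℝ}
    (hr : ∀ z a, r z a ≤ C) : Y r s z m n ≤ C * Multiset.card m * n := by
  apply ciSup_le
  rintro ⟨w, hw⟩
  have h1 := tot_le s hr w z
  have h2 : w.length = n * Multiset.card m := by
    rw [← Multiset.coe_card, hw, Multiset.card_nsmul]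
  rw [h2] at h1
  push_cast at h1
  simp only
  linarith

lemma Y_shift {r r' : V → A → ℝ} (s : A → V) {ξ : V} (h : ∀ z a, r' z a = r (ξ + z) a)
    (z : V) (m : Multiset A) (n : ℕ) : Y r' s z m n = Y r s (ξ + z) m n := by
  simp only [Y, tot_shift s h]

/-- almost sure convergence for a fixed content -/
lemma Y_converges [MeasurableSpace Ω] {μ : Measure Ω} [IsProbabilityMeasure μ] [Finite A]
    {r : Ω → V → A → ℝ} (s : A → V) (hrm : ∀ z a, Measurable fun ω => r ω z a) {C : ℝ}
    (hC : 0 ≤ C) (h0 : ∀ ω z a, 0 ≤ r ω z a) (h1 : ∀ ω z a, r ω z a ≤ C)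
    {T : V → Ω → Ω} (hT : ∀ ξ, MeasurePreserving (T ξ) μ μ)
    (hstat : ∀ ξ ω z a, r (T ξ ω) z a = r ω (ξ + z) a) (z : V) (m : Multiset A) :
    ∀ᵐ ω ∂μ, ∃ L, Tendsto (fun n : ℕ => Y (r ω) s z m n / n) atTop (𝓝 L) := by
  set ξ := (m.map s).sum with hξ
  have hit : ∀ (n : ℕ) (ω : Ω) (z : V) (a : A), r ((T ξ)^[n] ω) z a = r ω (n • ξ + z) a := by
    intro n
    induction n with
    | zero => intro ω z a; simp
    | succ n ih =>
      intro ω z a
      rw [iterate_succ_apply, ih, hstat, add_smul, one_smul, ← add_assoc, add_comm ξ]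
  apply Kingman.kingman_super (hT ξ) (C := C * Multiset.card m)
  · intro n
    have := finite_lists (n • m)
    exact Measurable.iSup (fun w => tot_measurable s hrm _ z)
  · positivity
  · intro n n' ω
    rw [Y_shift s (hit n ω)]
    have := Y_super (r ω) s z m n n'
    rwa [add_comm (n • ξ) z]
  · intro n ω
    exact Y_nonneg s z m n (h0 ω)
  · intro n ω
    exact Y_le s z m n (h1 ω)

lemma M_mono [Finite A] [Nonempty A] {r : V → A → ℝ} (s : A → V) (hr : ∀ z a, 0 ≤ r z a)
    (z : V) {n n' : ℕ} (h : n ≤ n') : M r s z n ≤ M r s z n' := by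
  apply ciSup_le
  rintro ⟨w, hw⟩
  have h1 := le_M r s z n' (w ++ List.replicate (n' - n) (Classical.arbitrary A)) (by
    simp only [List.length_append, List.length_replicate]; omega)
  rw [tot_append] at h1
  have h2 := tot_nonneg s hr (List.replicate (n' - n) (Classical.arbitrary A))
    (z + (w.map s).sum)
  simp only
  linarith

lemma Y_le_M [Finite A] (r : V → A → ℝ) (s : A → V) (z : V) (m : Multiset A) (n : ℕ) :
    Y r s z m n ≤ M r s z (n * Multiset.card m) := by
  apply ciSup_le
  rintro ⟨w, hw⟩
  apply le_M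
  simp only
  rw [← Multiset.coe_card, hw, Multiset.card_nsmul]

/-- Every action sequence embeds in one whose content is a multiple of a small multiset. -/
lemma exists_content [Fintype A] [Nonempty A] [DecidableEq A] (N n : ℕ) (w : List A)
    (hw : w.length = n) : ∃ m : Multiset A, 1 ≤ Multiset.card m ∧
      Multiset.card m ≤ N + 1 + Fintype.card A ∧
      (w : Multiset A) ≤ (n / (N + 1) + 1) • m := by
  classical
  set K := n / (N + 1) + 1 with hK
  refine ⟨∑ a : A, (w.count a / K + 1) • ({a} : Multiset A), ?_, ?_, ?_⟩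
  · rw [Multiset.card_sum]
    simp only [Multiset.card_nsmul, Multiset.card_singleton, mul_one]
    calc 1 ≤ w.count (Classical.arbitrary A) / K + 1 := Nat.le_add_left _ _
      _ ≤ _ := Finset.single_le_sum (f := fun a => w.count a / K + 1)
        (fun _ _ => Nat.zero_le _) (Finset.mem_univ (Classical.arbitrary A))
  · rw [Multiset.card_sum]
    simp only [Multiset.card_nsmul, Multiset.card_singleton, mul_one]
    rw [Finset.sum_add_distrib]
    have h1 : ∑ a : A, w.count a / K ≤ N + 1 := by
      have h2 : (∑ a : A, w.count a / K) * K ≤ n := by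
        rw [Finset.sum_mul]
        calc ∑ a : A, w.count a / K * K ≤ ∑ a : A, w.count a :=
              Finset.sum_le_sum (fun a _ => Nat.div_mul_le_self _ _)
          _ = n := by
              rw [← hw]
              have := Multiset.toFinset_sum_count_eq (w : Multiset A)
              rw [Multiset.coe_card] at this
              rw [← this]
              symm
              have h9 : ∀ a : A, List.count a w = Multiset.count a (w : Multiset A) :=
                fun a => (Multiset.coe_count a w).symm
              rw [Finset.sum_congr rfl (fun a _ => h9 a)]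
              apply Finset.sum_subset (Finset.subset_univ _)
              intro a _ ha
              rw [Multiset.mem_toFinset] at ha
              exact Multiset.count_eq_zero_of_notMem ha
      have h3 : n < (N + 1) * K := by
        rw [hK, mul_add, mul_one]
        have := Nat.div_add_mod n (N + 1)
        have := Nat.mod_lt n (by omega : 0 < N + 1)
        linarith
      have hKpos : 0 < K := Nat.succ_pos _
      by_contra hlt
      push Not at hlt
      have : (N + 1) * K < (∑ a : A, w.count a / K) * K := Nat.mul_lt_mul_of_pos_right hlt hKpos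
      linarith
    simp only [Finset.sum_const, Finset.card_univ, smul_eq_mul, mul_one]
    omega
  · rw [Multiset.le_iff_count]
    intro a
    rw [Multiset.count_nsmul, Multiset.coe_count]
    have h1 : Multiset.count a (∑ b : A, (w.count b / K + 1) • ({b} : Multiset A))
        = w.count a / K + 1 := by
      rw [Multiset.count_sum']
      simp only [Multiset.count_nsmul, Multiset.count_singleton]
      rw [Finset.sum_eq_single a]
      · simp
      · intro b _ hb
        simp [hb.symm]
      · simp
    rw [h1]
    have h2 := Nat.div_add_mod (w.count a) K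
    have hKpos : 0 < K := Nat.succ_pos _
    have h3 := Nat.mod_lt (w.count a) hKpos
    rw [mul_add, mul_one]
    linarith

lemma M_le [Fintype A] [Nonempty A] {r : V → A → ℝ} (s : A → V) (hr : ∀ z a, 0 ≤ r z a)
    (z : V) (N n : ℕ) (B : ℝ)
    (hB : ∀ m : Multiset A, 1 ≤ Multiset.card m → Multiset.card m ≤ N + 1 + Fintype.card A →
      Y r s z m (n / (N + 1) + 1) ≤ B) : M r s z n ≤ B := by
  classical
  apply ciSup_le
  rintro ⟨w, hw⟩
  obtain ⟨m, hm0, hm1, hm2⟩ := exists_content N n w hw
  refine le_trans ?_ (hB m hm0 hm1)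
  obtain ⟨m', hm'⟩ := Multiset.le_iff_exists_add.1 hm2
  have h1 := le_Y r s z m (n / (N + 1) + 1) (w ++ m'.toList) (by
    rw [← Multiset.coe_add, Multiset.coe_toList, ← hm'])
  rw [tot_append] at h1
  have h2 := tot_nonneg s hr m'.toList (z + (w.map s).sum)
  simp only
  linarith

/-- deterministic convergence statement -/
lemma M_tendsto [Fintype A] [Nonempty A] {r : V → A → ℝ} (s : A → V) (hr : ∀ z a, 0 ≤ r z a)
    {C : ℝ} (hC : 0 ≤ C) (hr1 : ∀ z a, r z a ≤ C) (z : V)
    (hY : ∀ m : Multiset A, ∃ L, Tendsto (fun n : ℕ => Y r s z m n / n) atTop (𝓝 L)) :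
    ∃ L, Tendsto (fun n : ℕ => M r s z n / n) atTop (𝓝 L) := by
  classical
  choose y hy using hY
  -- bounds for `y`
  have hy0 : ∀ m, 0 ≤ y m := fun m =>
    ge_of_tendsto' (hy m) (fun n => div_nonneg (Y_nonneg s z m n hr) (by positivity))
  have hyC : ∀ m, y m ≤ C * Multiset.card m := fun m => by
    apply le_of_tendsto' (hy m)
    intro n
    rcases Nat.eq_zero_or_pos n with h | h
    · subst h; simp; positivity
    · have hn : (0 : ℝ) < n := by exact_mod_cast h
      rw [div_le_iff₀ hn]
      exact Y_le s z m n hr1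
  set lam : {m : Multiset A // 1 ≤ Multiset.card m} → ℝ := fun m =>
    y m.1 / Multiset.card m.1 with hlam
  have : Nonempty {m : Multiset A // 1 ≤ Multiset.card m} :=
    ⟨⟨{Classical.arbitrary A}, by simp⟩⟩
  have hlamC : ∀ m, lam m ≤ C := by
    rintro ⟨m, hm⟩
    have hm' : (0 : ℝ) < Multiset.card m := by exact_mod_cast hm
    simp only [hlam]
    rw [div_le_iff₀ hm']
    exact hyC m
  have hbdd : BddAbove (Set.range lam) := ⟨C, by rintro _ ⟨m, rfl⟩; exact hlamC m⟩
  set Λ : ℝ := ⨆ m, lam m with hΛ
  have hΛ0 : 0 ≤ Λ := by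
    have h1 := le_ciSup hbdd (Classical.arbitrary _)
    refine le_trans ?_ h1
    exact div_nonneg (hy0 _) (by positivity)
  refine ⟨Λ, ?_⟩
  rw [tendsto_order]
  constructor
  · -- lower bound
    intro b hb
    obtain ⟨⟨m, hm⟩, hm2⟩ := exists_lt_of_lt_ciSup hb
    simp only [hlam] at hm2
    have hmpos : (0 : ℝ) < Multiset.card m := by exact_mod_cast hm
    -- Y m q / q * (q / n) → y m / card m
    set c := Multiset.card m with hc
    have hq : Tendsto (fun n : ℕ => n / c) atTop atTop := Nat.tendsto_div_const_atTop (by omega)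
    have h1 : Tendsto (fun n : ℕ => Y r s z m (n / c) / ((n / c : ℕ) : ℝ)) atTop (𝓝 (y m)) :=
      (hy m).comp hq
    have h2 : Tendsto (fun n : ℕ => ((n / c : ℕ) : ℝ) / n) atTop (𝓝 (1 / c)) := by
      have h3 : Tendsto (fun n : ℕ => ((n / c : ℕ) : ℝ) / n) atTop (𝓝 ((c : ℝ)⁻¹)) := by
        have h4 := tendsto_nat_floor_div_atTop (R := ℝ) |>.comp
          ((tendsto_natCast_atTop_atTop (R := ℝ)).const_mul_atTop (inv_pos.2 hmpos))
        have h5 := h4.mul_const ((c : ℝ)⁻¹)
        rw [one_mul] at h5
        refine h5.congr' ?_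
        filter_upwards [eventually_ge_atTop 1] with n hn
        have hnpos : (0 : ℝ) < n := by exact_mod_cast hn
        simp only [comp_apply]
        have h6 : (c : ℝ)⁻¹ * n = n / c := by field_simp
        rw [h6, Nat.floor_div_natCast, Nat.floor_natCast]
        field_simp
      simpa using h3
    have h7 : Tendsto (fun n : ℕ => Y r s z m (n / c) / ((n / c : ℕ) : ℝ) *
        (((n / c : ℕ) : ℝ) / n)) atTop (𝓝 (y m * (1 / c))) := h1.mul h2
    have h8 : b < y m * (1 / c) := by
      rw [mul_one_div]; exact hm2
    filter_upwards [h7.eventually_const_lt h8, eventually_ge_atTop c] with n hn hn2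
    have hnpos : (0 : ℝ) < n := by
      have : 0 < n := by omega
      exact_mod_cast this
    have hqpos : (0 : ℝ) < ((n / c : ℕ) : ℝ) := by
      have : 0 < n / c := Nat.div_pos hn2 (by omega)
      exact_mod_cast this
    refine hn.trans_le ?_
    rw [div_mul_div_cancel₀ hqpos.ne']
    apply div_le_div_of_nonneg_right _ hnpos.le
    calc Y r s z m (n / c) ≤ M r s z (n / c * c) := Y_le_M r s z m (n / c)
      _ ≤ M r s z n := M_mono s hr z (Nat.div_mul_le_self n c)
  · -- upper bound
    intro b hb
    set cA := Fintype.card A with hcA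
    -- choose N with Λ (N + 1 + cA) / (N + 1) < b
    have h1 : Tendsto (fun N : ℕ => Λ * (((N : ℝ) + 1 + cA) / ((N : ℝ) + 1))) atTop
        (𝓝 (Λ * 1)) := by
      apply Tendsto.const_mul
      have h2 : ∀ N : ℕ, ((N : ℝ) + 1 + cA) / ((N : ℝ) + 1) = 1 + cA / ((N : ℝ) + 1) := by
        intro N
        have : (N : ℝ) + 1 ≠ 0 := by positivity
        field_simp
      simp only [h2]
      have h3 : Tendsto (fun N : ℕ => (cA : ℝ) / ((N : ℝ) + 1)) atTop (𝓝 0) := by
        have h4 := (tendsto_one_div_add_atTop_nhds_zero_nat (𝕜 := ℝ)).const_mul (cA : ℝ)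
        simpa [div_eq_mul_inv] using h4
      simpa using h3.const_add 1
    rw [mul_one] at h1
    obtain ⟨N, hN⟩ := (h1.eventually_lt_const hb).exists
    -- finite set of contents
    have hfin : {m : Multiset A | Multiset.card m ≤ N + 1 + cA}.Finite := by
      have h2 : {l : List A | l.length ≤ N + 1 + cA}.Finite := List.finite_length_le A _
      refine (h2.image Multiset.ofList).subset ?_
      intro m hm
      exact ⟨m.toList, by simpa using hm, Multiset.coe_toList m⟩
    have h3 : ∀ m ∈ {m : Multiset A | Multiset.card m ≤ N + 1 + cA}, ∀ᶠ n : ℕ in atTop,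
        1 ≤ Multiset.card m → Y r s z m (n / (N + 1) + 1) / n < b := by
      intro m hm
      by_cases hm1 : 1 ≤ Multiset.card m
      swap
      · exact Eventually.of_forall (fun n h => absurd h hm1)
      have hmpos : (0 : ℝ) < Multiset.card m := by exact_mod_cast hm1
      have hq : Tendsto (fun n : ℕ => n / (N + 1) + 1) atTop atTop :=
        tendsto_atTop_mono (fun n => Nat.le_succ _) (Nat.tendsto_div_const_atTop (by omega))
      have h4 : Tendsto (fun n : ℕ => Y r s z m (n / (N + 1) + 1) /
          ((n / (N + 1) + 1 : ℕ) : ℝ)) atTop (𝓝 (y m)) := (hy m).comp hq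
      have h5 : Tendsto (fun n : ℕ => ((n / (N + 1) + 1 : ℕ) : ℝ) / n) atTop
          (𝓝 (1 / ((N : ℝ) + 1))) := by
        have hNpos : (0 : ℝ) < (N : ℝ) + 1 := by positivity
        have h6 : Tendsto (fun n : ℕ => ((n / (N + 1) : ℕ) : ℝ) / n) atTop
            (𝓝 (((N : ℝ) + 1)⁻¹)) := by
          have h4 := tendsto_nat_floor_div_atTop (R := ℝ) |>.comp
            ((tendsto_natCast_atTop_atTop (R := ℝ)).const_mul_atTop (inv_pos.2 hNpos))
          have h5 := h4.mul_const (((N : ℝ) + 1)⁻¹)
          rw [one_mul] at h5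
          refine h5.congr' ?_
          filter_upwards [eventually_ge_atTop 1] with n hn
          have hnpos : (0 : ℝ) < n := by exact_mod_cast hn
          simp only [comp_apply]
          have h6 : ((N : ℝ) + 1)⁻¹ * n = n / ((N + 1 : ℕ) : ℝ) := by push_cast; field_simp
          rw [h6, Nat.floor_div_natCast, Nat.floor_natCast]
          push_cast
          field_simp
        have h7 : Tendsto (fun n : ℕ => (1 : ℝ) / n) atTop (𝓝 0) :=
          tendsto_one_div_atTop_nhds_zero_nat
        have h8 := h6.add h7
        simp only [add_zero] at h8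
        simpa [add_div] using h8
      have h6 := h4.mul h5
      have h7 : y m * (1 / ((N : ℝ) + 1)) < b := by
        have h8 : y m ≤ Λ * Multiset.card m := by
          have h9 := le_ciSup hbdd ⟨m, hm1⟩
          simp only [hlam] at h9
          rwa [div_le_iff₀ hmpos] at h9
        have h9 : (Multiset.card m : ℝ) ≤ (N : ℝ) + 1 + cA := by
          have : Multiset.card m ≤ N + 1 + cA := hm
          exact_mod_cast this
        have hNpos : (0 : ℝ) < (N : ℝ) + 1 := by positivity
        have h10 : y m ≤ Λ * ((N : ℝ) + 1 + cA) :=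
          h8.trans (mul_le_mul_of_nonneg_left h9 hΛ0)
        calc y m * (1 / ((N : ℝ) + 1)) ≤ Λ * ((N : ℝ) + 1 + cA) * (1 / ((N : ℝ) + 1)) :=
              mul_le_mul_of_nonneg_right h10 (by positivity)
          _ = Λ * (((N : ℝ) + 1 + cA) / ((N : ℝ) + 1)) := by ring
          _ < b := hN
      filter_upwards [h6.eventually_lt_const h7, eventually_ge_atTop 1] with n hn hn1 _
      have hqpos : (0 : ℝ) < ((n / (N + 1) + 1 : ℕ) : ℝ) := by positivity
      rwa [div_mul_div_cancel₀ hqpos.ne'] at hn
    have h4 := (hfin.eventually_all).2 h3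
    filter_upwards [h4, eventually_ge_atTop 1] with n hn hn1
    have hnpos : (0 : ℝ) < n := by exact_mod_cast hn1
    -- maximum over finite set is attained
    by_contra hcon
    push Not at hcon
    -- use M_le with B = max
    have h5 : ∃ B < b * n, ∀ m ∈ {m : Multiset A | Multiset.card m ≤ N + 1 + cA},
        1 ≤ Multiset.card m → Y r s z m (n / (N + 1) + 1) ≤ B := by
      have hne : (hfin.toFinset.filter (fun m => 1 ≤ Multiset.card m)).Nonempty := by
        refine ⟨{Classical.arbitrary A}, ?_⟩
        simp only [Finset.mem_filter, Set.Finite.mem_toFinset]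
        refine ⟨?_, by simp⟩
        change Multiset.card {Classical.arbitrary A} ≤ N + 1 + cA
        rw [Multiset.card_singleton]
        omega
      obtain ⟨m0, hm0, hmax⟩ := Finset.exists_max_image _
        (fun m => Y r s z m (n / (N + 1) + 1)) hne
      simp only [Finset.mem_filter, Set.Finite.mem_toFinset] at hm0 hmax
      refine ⟨Y r s z m0 (n / (N + 1) + 1), ?_, ?_⟩
      · have := hn m0 hm0.1 hm0.2
        rwa [div_lt_iff₀ hnpos] at this
      · intro m hm hm1
        exact hmax m ⟨hm, hm1⟩
    obtain ⟨B, hB1, hB2⟩ := h5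
    have h6 := M_le s hr z N n B (fun m hm1 hm2 => hB2 m hm2 hm1)
    rw [le_div_iff₀ hnpos] at hcon
    linarith

/-- Almost sure convergence of the optimal average payoff of a single controller. -/
theorem single_controller [MeasurableSpace Ω] {μ : Measure Ω} [IsProbabilityMeasure μ]
    [Finite A] [Nonempty A] {r : Ω → V → A → ℝ} (s : A → V)
    (hrm : ∀ z a, Measurable fun ω => r ω z a) {C : ℝ}
    (h0 : ∀ ω z a, 0 ≤ r ω z a) (h1 : ∀ ω z a, r ω z a ≤ C)
    {T : V → Ω → Ω} (hT : ∀ ξ, MeasurePreserving (T ξ) μ μ)
    (hstat : ∀ ξ ω z a, r (T ξ ω) z a = r ω (ξ + z) a) (z : V) :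
    ∀ᵐ ω ∂μ, ∃ L, Tendsto (fun n : ℕ => M (r ω) s z n / n) atTop (𝓝 L) := by
  classical
  have := Fintype.ofFinite A
  rcases isEmpty_or_nonempty Ω with hΩ | ⟨⟨ω0⟩⟩
  · exact Eventually.of_forall (fun ω => (hΩ.false ω).elim)
  have hC : 0 ≤ C := (h0 ω0 z (Classical.arbitrary A)).trans (h1 ω0 z _)
  have : Countable (Multiset A) := Quotient.countable
  have h := fun m => Y_converges s hrm hC h0 h1 hT hstat z m
  filter_upwards [ae_all_iff.2 h] with ω hω
  exact M_tendsto s (h0 ω) hC (h1 ω) z hω

end Pool.Agent.H95.Single
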